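import Mathlib
import Pool.Agent.Lib.MP_c96c3a_co.All
import Pool.Agent.Lib.MP_c96c3a_co.Witness

namespace Pool.Agent.Results.MP_c96c3a_co.TriangularRangeSmaller

/-- There are `n ≥ 1` and an `n × n` matrix `A` with entries `± 1` whose permanent is not the permanent
of any `n × n` matrix `B` with entries `± 1` all of whose entries `-1` lie on or above the diagonal. -/
theorem result : ∃ n : ℕ, 1 ≤ n ∧ ∃ A : Matrix (Fin n) (Fin n) ℤ,
    (∀ i j, A i j = 1 ∨ A i j = -1) ∧
    ∀ B : Matrix (Fin n) (Fin n) ℤ, (∀ i j, B i j = 1 ∨ B i j = -1) → (∀ i j, B i j = -1 → i ≤ j) →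
      B.permanent ≠ A.permanent := by
  refine ⟨11, by norm_num, Matrix.of fun i j => Lib.MP_c96c3a_co.sg (Lib.MP_c96c3a_co.wit i) j, ?_, ?_⟩
  · intro i j
    simp only [Matrix.of_apply, Lib.MP_c96c3a_co.sg]
    split_ifs <;> simp
  · intro B hB hup
    rw [Lib.MP_c96c3a_co.permanent_wit]
    exact Lib.MP_c96c3a_co.permanent_ne B hB hup

end Pool.Agent.Results.MP_c96c3a_co.TriangularRangeSmaller
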